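import Pool.Agent.K7.H93.HE.Main

/-!
# A Hom-Ext quiver of an exceptional collection whose relations are not monomial

Let `Q` be the quiver of type `D₄` with all arrows pointing to the centre.  The representations with
dimension vectors `(1; 0, 0, 1)`, `(1; 0, 1, 1)`, `(1; 1, 0, 1)`, `(0; 0, 0, 1)` (centre first) form
an exceptional sequence `X_0, X_1, X_2, X_3`; all extension groups between them vanish and the
morphisms between them form a commutative square `X_0 → X_1 → X_3`, `X_0 → X_2 → X_3`.  So the ideal of
relations of the Hom-Ext quiver, a square, is generated by the difference of two paths, and it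
contains no path.

The definitions are in `Pool/Agent/K7/H93/HE/Defs.lean`: `FinQuiver`, `FinQuiver.Acyclic`, `Rep`
(finite-dimensional representations), `Hom`, `Ext1` (kernel and cokernel of the standard map `delta`),
`compHom`, `push`, `pull` (composition of morphisms, push-out and pull-back of extensions),
`Indecomposable`, `Exceptional`, `ExceptionalSequence`, `ExceptionalCollection`, `radHom`, `radHom2`,
`radExt2`, `HomExtQuiver` (a Hom-Ext quiver, given by any choice of bases of the radical morphisms and
of the extensions modulo those which factor), `eval`, `R` (the ideal of relations), `Monomial`.
-/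

set_option autoImplicit false

namespace Pool.Agent.Results.MP_2a1499_al.CommutativeSquare

open Pool.Agent.K7.H93.HE

universe u

/-- For every field `k` there are a finite acyclic quiver `Q` (of type `D₄`) and an exceptional
collection `X` of four representations of `Q` over `k` such that `X` has a Hom-Ext quiver, and for
every Hom-Ext quiver of `X` (every choice of the arrows) the ideal `R` of relations is not generated
by monomial relations. -/
theorem result (k : Type u) [Field k] :
    ∃ Q : FinQuiver, Q.Acyclic ∧ ∃ X : Fin 4 → Rep k Q, ExceptionalCollection X ∧
      Nonempty (HomExtQuiver X) ∧ ∀ P : HomExtQuiver X, ¬ P.Monomial :=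
  ⟨D4, D4_acyclic, X k, collection, ⟨square⟩, not_monomial⟩

end Pool.Agent.Results.MP_2a1499_al.CommutativeSquare
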